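import Pool.Agent.L7h10.AB.Stm

/-!
# Project AB, part DIVQ
-/

set_option autoImplicit false

namespace Pool.Agent.L7h12.AB

open Polynomial Pool.Agent.L7h10.AB

variable {K : Type} [Field K]

open Classical in
/-- the gcd of the numbers `n - i`, `i < n`, `f.coeff i ≠ 0` -/
noncomputable def dd (n : ℕ) (f : K[X]) : ℕ :=
  ((Finset.range n).filter (fun i => f.coeff i ≠ 0)).gcd (fun i => n - i)

/-- the action of the units -/
noncomputable def ac (n : ℕ) (u : Kˣ) (f : K[X]) : K[X] :=
  ∑ i ∈ Finset.range (n + 1), C ((u : K) ^ ((n - i) / dd n f) * f.coeff i) * X ^ i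

theorem ac_coeff {n : ℕ} (u : Kˣ) {f : K[X]} (hf : f.natDegree = n) (j : ℕ) :
    (ac n u f).coeff j = (u : K) ^ ((n - j) / dd n f) * f.coeff j := by
  rw [ac, finset_sum_coeff]
  simp only [coeff_C_mul_X_pow]
  rw [Finset.sum_ite_eq]
  split_ifs with h
  · rfl
  · rw [Finset.mem_range] at h
    rw [coeff_eq_zero_of_natDegree_lt (by omega), mul_zero]

theorem dd_dvd {n i : ℕ} {f : K[X]} (hi : i < n) (hc : f.coeff i ≠ 0) : dd n f ∣ n - i := by
  classical
  exact Finset.gcd_dvd (Finset.mem_filter.mpr ⟨Finset.mem_range.mpr hi, hc⟩)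

theorem ac_ne {n : ℕ} (u : Kˣ) {f : K[X]} (hf : f.natDegree = n) (j : ℕ) :
    (ac n u f).coeff j ≠ 0 ↔ f.coeff j ≠ 0 := by
  rw [ac_coeff u hf]
  constructor
  · exact fun h => right_ne_zero_of_mul h
  · exact fun h => mul_ne_zero (pow_ne_zero _ u.ne_zero) h

theorem dd_ac {n : ℕ} (u : Kˣ) {f : K[X]} (hf : f.natDegree = n) : dd n (ac n u f) = dd n f := by
  classical
  unfold dd
  congr 1
  apply Finset.filter_congr
  intro i _
  exact ac_ne u hf i

theorem ac_deg {n : ℕ} (u : Kˣ) {f : K[X]} (hm : f.Monic) (hf : f.natDegree = n) :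
    (ac n u f).Monic ∧ (ac n u f).natDegree = n := by
  have hle : (ac n u f).natDegree ≤ n := by
    rw [natDegree_le_iff_coeff_eq_zero]
    intro N hN
    rw [ac_coeff u hf, coeff_eq_zero_of_natDegree_lt (by omega), mul_zero]
  have hc : (ac n u f).coeff n = 1 := by
    rw [ac_coeff u hf, Nat.sub_self, Nat.zero_div, pow_zero, one_mul]
    subst hf
    exact hm.coeff_natDegree
  have h2 : (ac n u f).natDegree = n :=
    le_antisymm hle (le_natDegree_of_ne_zero (by rw [hc]; exact one_ne_zero))
  exact ⟨by rw [Monic, leadingCoeff, h2, hc], h2⟩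

theorem supp_ne {n : ℕ} (hn : 2 ≤ n) {f : K[X]} (hm : f.Monic) (hf : f.natDegree = n)
    (hs : SB f) : ∃ i < n, f.coeff i ≠ 0 := by
  by_contra hcon
  push Not at hcon
  have hX : f = X ^ n := by
    ext j
    rw [coeff_X_pow]
    split_ifs with h
    · rw [h]
      subst hf
      exact hm.coeff_natDegree
    · rcases lt_or_gt_of_ne h with h1 | h1
      · exact hcon j h1
      · exact coeff_eq_zero_of_natDegree_lt (by omega)
  apply hs.1 0
  · rw [hX, map_pow, aeval_X, zero_pow (by omega)]
  · rw [hX, derivative_X_pow, map_mul, map_pow, aeval_X, zero_pow (by omega), mul_zero]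

theorem dd_pos {n : ℕ} (hn : 2 ≤ n) {f : K[X]} (hm : f.Monic) (hf : f.natDegree = n)
    (hs : SB f) : 0 < dd n f := by
  obtain ⟨i, hi, hc⟩ := supp_ne hn hm hf hs
  exact Nat.pos_of_dvd_of_pos (dd_dvd hi hc) (by omega)

theorem key {n : ℕ} (u : Kˣ) {f : K[X]} (hf : f.natDegree = n) (l : AlgebraicClosure K)
    (hl : l ^ dd n f = algebraMap K (AlgebraicClosure K) (u : K)) (j : ℕ) (hj : j ≤ n) :
    algebraMap K (AlgebraicClosure K) ((ac n u f).coeff j) =
      l ^ (n - j) * algebraMap K (AlgebraicClosure K) (f.coeff j) := by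
  rw [ac_coeff u hf, map_mul, map_pow, ← hl, ← pow_mul]
  by_cases hc : f.coeff j = 0
  · rw [hc, map_zero, mul_zero, mul_zero]
  · have hd : dd n f ∣ n - j := by
      rcases hj.lt_or_eq with h | h
      · exact dd_dvd h hc
      · rw [h, Nat.sub_self]; exact dvd_zero _
    rw [Nat.mul_div_cancel' hd]

theorem ac_comp {n : ℕ} (u : Kˣ) {f : K[X]} (hf : f.natDegree = n) (l : AlgebraicClosure K)
    (hl : l ^ dd n f = algebraMap K (AlgebraicClosure K) (u : K)) :
    ((ac n u f).map (algebraMap K (AlgebraicClosure K))).comp (C l * X) =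
      C (l ^ n) * f.map (algebraMap K (AlgebraicClosure K)) := by
  ext j
  rw [comp_C_mul_X_coeff, coeff_C_mul, coeff_map, coeff_map]
  rcases le_or_gt j n with h | h
  · rw [key u hf l hl j h, mul_right_comm, ← pow_add, Nat.sub_add_cancel h]
  · rw [ac_coeff u hf, coeff_eq_zero_of_natDegree_lt (by omega), mul_zero, map_zero, zero_mul,
      mul_zero]

theorem ac_SB {n : ℕ} (hn : 2 ≤ n) (u : Kˣ) {f : K[X]} (hm : f.Monic) (hf : f.natDegree = n)
    (hs : SB f) : SB (ac n u f) := by
  obtain ⟨l, hl⟩ := IsAlgClosed.exists_pow_nat_eq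
    (algebraMap K (AlgebraicClosure K) (u : K)) (dd_pos hn hm hf hs)
  have hl0 : l ≠ 0 := by
    rintro rfl
    rw [zero_pow (dd_pos hn hm hf hs).ne'] at hl
    exact u.ne_zero ((map_eq_zero _).mp hl.symm)
  have h1 : ∀ r, aeval (l * r) (ac n u f) = l ^ n * aeval r f := by
    intro r
    have h := congrArg (eval r) (ac_comp u hf l hl)
    rw [eval_comp, eval_mul, eval_mul, eval_C, eval_X, eval_C, eval_map_algebraMap,
      eval_map_algebraMap] at h
    exact h
  have h2 : ∀ r, l * aeval (l * r) (derivative (ac n u f)) = l ^ n * aeval r (derivative f) := by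
    intro r
    have h := congrArg (fun q => eval r (derivative q)) (ac_comp u hf l hl)
    simp only [derivative_comp, derivative_mul, derivative_C, derivative_X, derivative_map,
      eval_comp, eval_mul, eval_add, eval_C, eval_X, eval_zero, eval_one, zero_mul, zero_add,
      mul_one, eval_map_algebraMap] at h
    exact h
  have h3 : ∀ r, aeval (l * r) (prim (ac n u f)) = l ^ (n + 1) * aeval r (prim f) := by
    intro r
    rw [prim, prim, (ac_deg u hm hf).2, hf]
    simp only [map_sum, map_mul, aeval_C, map_pow, aeval_X, Finset.mul_sum]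
    apply Finset.sum_congr rfl
    intro i hi
    rw [Finset.mem_range] at hi
    rw [map_div₀, map_div₀, key u hf l hl i (by omega), mul_pow]
    have h4 : l ^ (n + 1) = l ^ (n - i) * l ^ (i + 1) := by
      rw [← pow_add]
      congr 1
      omega
    rw [h4]
    ring
  have hex : ∀ r, ∃ r0, r = l * r0 := fun r => ⟨l⁻¹ * r, by rw [mul_inv_cancel_left₀ hl0]⟩
  constructor
  · intro r hr
    obtain ⟨r, rfl⟩ := hex r
    rw [h1] at hr
    have h4 := hs.1 _ ((mul_eq_zero.mp hr).resolve_left (pow_ne_zero _ hl0))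
    intro h5
    have h6 := h2 r
    rw [h5, mul_zero] at h6
    exact h4 ((mul_eq_zero.mp h6.symm).resolve_left (pow_ne_zero _ hl0))
  · intro r s hr hs' hrs
    obtain ⟨r, rfl⟩ := hex r
    obtain ⟨s, rfl⟩ := hex s
    rw [h1] at hr hs'
    rw [h3, h3] at hrs
    rw [hs.2 r s ((mul_eq_zero.mp hr).resolve_left (pow_ne_zero _ hl0))
      ((mul_eq_zero.mp hs').resolve_left (pow_ne_zero _ hl0))
      (mul_left_cancel₀ (pow_ne_zero _ hl0) hrs)]

theorem s_DIVQ : S_DIVQ := by
  classical
  intro K _ _ p _ n hn _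
  let S := {f : K[X] // f.Monic ∧ f.natDegree = n ∧ f.coeff (n - 1) = 0 ∧ SB f}
  letI : MulAction Kˣ S :=
    { smul := fun u f => ⟨ac n u f.1, (ac_deg u f.2.1 f.2.2.1).1, (ac_deg u f.2.1 f.2.2.1).2,
        by rw [ac_coeff u f.2.2.1, f.2.2.2.1, mul_zero], ac_SB hn u f.2.1 f.2.2.1 f.2.2.2.2⟩
      one_smul := by
        intro f
        apply Subtype.ext
        change ac n 1 f.1 = f.1
        ext j
        rw [ac_coeff 1 f.2.2.1, Units.val_one, one_pow, one_mul]
      mul_smul := by
        intro u v f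
        apply Subtype.ext
        change ac n (u * v) f.1 = ac n u (ac n v f.1)
        ext j
        rw [ac_coeff _ f.2.2.1, ac_coeff _ (ac_deg v f.2.1 f.2.2.1).2, ac_coeff _ f.2.2.1,
          dd_ac v f.2.2.1, Units.val_mul, mul_pow, mul_assoc] }
  have hfree : ∀ f : S, MulAction.stabilizer Kˣ f = ⊥ := by
    intro f
    rw [eq_bot_iff]
    intro u hu
    rw [MulAction.mem_stabilizer_iff] at hu
    have hu' : ac n u f.1 = f.1 := congrArg Subtype.val hu
    have hd := dd_pos hn f.2.1 f.2.2.1 f.2.2.2.2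
    have h1 : ∀ i < n, f.1.coeff i ≠ 0 → dd n f.1 * orderOf u ∣ n - i := by
      intro i hi hc
      have h2 := congrArg (fun q => q.coeff i) hu'
      simp only [ac_coeff u f.2.2.1] at h2
      have h3 : (u : K) ^ ((n - i) / dd n f.1) = 1 := by
        have h4 : ((u : K) ^ ((n - i) / dd n f.1) - 1) * f.1.coeff i = 0 := by
          rw [sub_mul, h2, one_mul, sub_self]
        exact sub_eq_zero.mp ((mul_eq_zero.mp h4).resolve_right hc)
      have h5 : u ^ ((n - i) / dd n f.1) = 1 := by
        apply Units.ext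
        rw [Units.val_pow_eq_pow_val, h3, Units.val_one]
      have h6 := orderOf_dvd_of_pow_eq_one h5
      have h7 := mul_dvd_mul_left (dd n f.1) h6
      rwa [Nat.mul_div_cancel' (dd_dvd hi hc)] at h7
    have h2 : dd n f.1 * orderOf u ∣ dd n f.1 := by
      conv_rhs => rw [dd]
      apply Finset.dvd_gcd
      intro i hi
      rw [Finset.mem_filter, Finset.mem_range] at hi
      exact h1 i hi.1 hi.2
    have h3 : orderOf u = 1 := by
      have h4 := Nat.le_of_dvd hd h2
      have h5 : orderOf u ≤ 1 := by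
        by_contra h6
        push Not at h6
        nlinarith
      have h6 : 0 < orderOf u := Nat.pos_of_ne_zero (by
        intro h0
        rw [h0, mul_zero] at h2
        have := Nat.eq_zero_of_zero_dvd h2
        omega)
      omega
    rw [Subgroup.mem_bot]
    exact orderOf_eq_one_iff.mp h3
  have e := MulAction.selfEquivOrbitsQuotientProd hfree
  have h1 : Ncen K n = Nat.card S := rfl
  rw [h1, Nat.card_congr e, Nat.card_prod, Nat.card_units]
  exact dvd_mul_left _ _

end Pool.Agent.L7h12.AB
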